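import Mathlib
import Pool.Agent.Q150.EG.Univ
import Pool.Agent.Q150.EG.GBridge

/-!
# MP_709666_lc: existentially closed groups with elementarily equivalent von Neumann algebras

There are countable existentially closed groups `G`, `H` which are not isomorphic, but whose group
von Neumann algebras are elementarily equivalent.
-/

set_option autoImplicit false

namespace Pool.Agent.Results.MP_709666_lc.ElemEquiv

open Function
open Pool.Agent.Q150.EG (LEquiv SatSys ClosedG lEquiv_of)

/-- `G` is existentially closed: every finite system of equations `w = 1` (`w ∈ E`) and inequations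
`w ≠ 1` (`w ∈ I`), the `w` being words in `m` constants `g 0, …, g (m - 1)` from `G` and `n` unknowns,
which has a solution in some group `K` containing `G` (by an injective homomorphism `φ`), has a
solution in `G`. -/
def IsEC (G : Type) [Group G] : Prop :=
  ∀ (m n : ℕ) (E I : Finset (FreeGroup (Fin m ⊕ Fin n))) (g : Fin m → G),
    (∃ (K : Type) (_ : Group K) (φ : G →* K), Injective φ ∧ ∃ x : Fin n → K,
      (∀ w ∈ E, FreeGroup.lift (Sum.elim (φ ∘ g) x) w = 1) ∧
        ∀ w ∈ I, FreeGroup.lift (Sum.elim (φ ∘ g) x) w ≠ 1) →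
    ∃ x : Fin n → G, (∀ w ∈ E, FreeGroup.lift (Sum.elim g x) w = 1) ∧
      ∀ w ∈ I, FreeGroup.lift (Sum.elim g x) w ≠ 1

theorem isEC_of (G : Type) [Group G] (h : ClosedG SatSys G) : IsEC G :=
  fun m n E I g hc => h m n (E, I) g hc

/-- There are countable existentially closed groups `G`, `H`, not isomorphic, with `L(G) ≡ L(H)`.
Moreover there is a complete theory (that of `L(U)` for a suitable group `U`) such that for every
countable group `A` and every countable group `K` there is a countable existentially closed group `G`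
which contains a copy of `A`, is not embeddable in `K`, and whose von Neumann algebra `L(G)` has this
theory. -/
theorem result :
    (∃ (G H : Type) (_ : Group G) (_ : Group H), Countable G ∧ Countable H ∧ IsEC G ∧ IsEC H ∧
      IsEmpty (G ≃* H) ∧ LEquiv G H) ∧
    ∃ (U : Type) (_ : Group U), ∀ (A K : Type) [Group A] [Group K] [Countable A] [Countable K],
      ∃ (G : Type) (_ : Group G), Countable G ∧ IsEC G ∧ (∃ φ : A →* G, Injective φ) ∧
        (∀ ψ : G →* K, ¬ Injective ψ) ∧ LEquiv G U := by
  have key : ∃ (U : Type) (_ : Group U), ∀ (A K : Type) [Group A] [Group K] [Countable A]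
      [Countable K], ∃ (G : Type) (_ : Group G), Countable G ∧ IsEC G ∧
        (∃ φ : A →* G, Injective φ) ∧ (∀ ψ : G →* K, ¬ Injective ψ) ∧ LEquiv G U := by
    obtain ⟨Γ, iΓ, hΓ⟩ := Pool.Agent.Q150.EG.exists_universal
    obtain ⟨U, iU, θ, hθ, hU⟩ :=
      Pool.Agent.Q150.EG.exists_closed SatSys Pool.Agent.Q150.EG.persist_sys Γ
    refine ⟨U, iU, ?_⟩
    intro A K _ _ _ _
    have hcount : ∀ m n, Countable (Pool.Agent.Q150.EG.Sys m n) := fun m n => inferInstance
    obtain ⟨S, hS, hΦ, hc, hA, hK, hE⟩ := Pool.Agent.Q150.EG.exists_subgroup (U := U)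
      (fun B _ _ => by
        obtain ⟨φ, hφ⟩ := hΓ B
        exact ⟨θ.comp φ, hθ.comp hφ⟩)
      (fun S A => Pool.Agent.Q150.EG.Clo SatSys S A)
      (fun S hS => Pool.Agent.Q150.EG.exists_clo SatSys S hS)
      (fun S A B => Pool.Agent.Q150.EG.clo_mono SatSys S A B) A K
    refine ⟨↥(⨆ n, S n), inferInstance, hc, isEC_of _ ?_, hA, hK, ?_⟩
    · exact Pool.Agent.Q150.EG.closedG_union SatSys Pool.Agent.Q150.EG.persist_sys
        (fun m n c K L _ _ ψ hψ v h => (Pool.Agent.Q150.EG.satSys_iff m n c K L ψ hψ v).1 h) hU S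
        hS hΦ
    · exact lEquiv_of _ _ hE
  refine ⟨?_, key⟩
  obtain ⟨U, iU, hM⟩ := key
  obtain ⟨G, iG, hcG, hG, -, -, hGM⟩ := hM Unit Unit
  obtain ⟨H, iH, hcH, hH, -, hn, hHM⟩ := hM Unit G
  refine ⟨G, H, iG, iH, hcG, hcH, hG, hH, ⟨fun e => ?_⟩, hGM.trans' hHM⟩
  exact hn e.symm.toMonoidHom e.symm.injective

end Pool.Agent.Results.MP_709666_lc.ElemEquiv
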